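import Pool.Agent.H22.LQ.FIN3
import Pool.Agent.H34.KTH.GAP
import Pool.Agent.H51.KTH.EFR
import Pool.Agent.H40.KTH.SEC
import Pool.Agent.H73.KTH.Dim

/-!
# LQ0: the dimension of Kakeya sets from the entropy inequality
-/

set_option autoImplicit false

namespace Pool.LQ

open Finset Real MeasureTheory
open Pool.Agent.H49.Ent Pool.Agent.H32.Dense Pool.Agent.H24.KTH

namespace Dim24

/-- The mean energy of the times is bounded by their deficit. -/
lemma gf_le : ∃ C : ℝ, 0 ≤ C ∧ ∀ (J : ℕ) (Ω : Type) [Fintype Ω] (β : Type) (p : Ω → ℝ)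
    (b : Ω → β) (τ : Ω → ℤ), (∀ ω, 0 ≤ p ω) → ∑ ω, p ω = 1 →
    (∀ ω, 0 < p ω → 0 ≤ τ ω ∧ τ ω < 2 ^ J) →
    Gf (2 ^ J) p b τ ≤ 2 * Kf (2 ^ J) p b τ + C := by
  obtain ⟨C, hC, h⟩ := Pool.KTH.gap
  refine ⟨C, hC, ?_⟩
  intro J Ω _ β p b τ hp h1 hτ
  have hq : ∀ w, 0 ≤ dbl p b w := dbl_nonneg hp
  have hq1 : ∑ w, dbl p b w = 1 := by rw [(dbl_fst hp).sum]; exact h1
  have m1 : Marg (dbl p b) p (fun w => w.1) := dbl_fst hp
  have hl : Real.log ((2 ^ J : ℕ) : ℝ) = Pool.KTH.lm J := by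
    unfold Pool.KTH.lm
    push_cast
    rw [Real.log_pow]
  have e1 := CH_dbl_1 (b := b) hp τ τ
  have h2 := h J (Ω × Ω) (β × ℤ) (dbl p b) (fun w => (b w.1, τ w.2)) (fun w => τ w.1)
    (fun w => τ w.2) (Kf (2 ^ J) p b τ) hq hq1 (fun w hw => hτ _ (m1.pos hq hw))
    (fun w w' _ _ e => (Prod.ext_iff.mp e).2) (by
      rw [e1]
      unfold Kf
      rw [hl]
      linarith)
  refine le_trans (Ex_mono hq fun w _ => ?_) h2
  unfold ell Pool.KTH.gp
  have h0 : (0 : ℝ) < max 1 |(τ w.1 : ℝ) - τ w.2| := lt_of_lt_of_le one_pos (le_max_left _ _)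
  have hM : (0 : ℝ) < 2 ^ J := by positivity
  rw [max_comm]
  push_cast
  exact Real.log_le_log (by positivity) (by linarith)

end Dim24

open Dim24

/-- Level zero from the entropy inequality, for exponents near `α`. -/
theorem lev0_of {m : ℕ} (hm : 7 ≤ m) {α : ℝ} (hα : 1 < α)
    (h : ∀ x : ℝ, α < x → ∃ a : ℝ, α < a ∧ a < x ∧
      AKSG m (a * m / (m + cc m)) (a * m / (m + cc m) + m)) :
    LevZero m ((m + cc m) / α) := by
  intro ε hε
  have hmr : (7 : ℝ) ≤ m := by exact_mod_cast hm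
  have hcc : 0 < cc m := by unfold cc; positivity
  have hcm : cc m ≤ m := by
    unfold cc
    have : 0.05 / (m : ℝ) ≤ 0.05 / 7 := by gcongr
    linarith
  have hmc : 0 < (m : ℝ) + cc m := by linarith
  -- the exponent
  have hx : α < α * (1 + ε / (8 * m)) := by
    have : 0 < ε / (8 * m) := by positivity
    nlinarith
  obtain ⟨a, ha, hax, hA⟩ := h _ hx
  have ha0 : 0 < a := by linarith
  set a' : ℝ := a * m / (m + cc m) with ha'
  have ha'0 : 0 < a' := by positivity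
  -- `m / a' ≥ (m + c) / α - ε / 4`
  have hq : (m + cc m) / α - ε / 4 ≤ m / a' := by
    have e1 : m / a' = (m + cc m) / a := by
      rw [ha']
      field_simp
    rw [e1]
    have h2 : (m + cc m) / (α * (1 + ε / (8 * m))) ≤ (m + cc m) / a := by gcongr
    refine le_trans ?_ h2
    have hd : 0 < 1 + ε / (8 * m) := by positivity
    rw [← div_div, le_div_iff₀ hd]
    have h3 : (m + cc m) / α ≤ 2 * m := by
      rw [div_le_iff₀ (by linarith)]
      nlinarith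
    have h4 : (m + cc m) / α * (ε / (8 * m)) ≤ 2 * m * (ε / (8 * m)) :=
      mul_le_mul_of_nonneg_right h3 (by positivity)
    have h5 : 2 * (m : ℝ) * (ε / (8 * m)) = ε / 4 := by
      field_simp
      ring
    have h6 : 0 ≤ ε / 4 * (ε / (8 * m)) := by positivity
    nlinarith
  obtain ⟨C, hC0, hC⟩ := gf_le
  obtain ⟨B₀, B₁, hB₁, hB⟩ := hA (a' * (ε / 8)) (by positivity)
  set Λ : ℝ := a' + m with hΛ
  have hΛ0 : 0 < Λ := by positivity
  have hl2 : 0 < Real.log 2 := Real.log_pos (by norm_num)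
  set D : ℝ := Λ + 2 * B₁ with hD
  have hD0 : 0 < D := by positivity
  -- `θ`
  have hθ0 : 0 < min (a' * (ε / 8)) (a' * (ε / 8) * Real.log 2 / D) := by
    refine lt_min (by positivity) (by positivity)
  refine ⟨min (a' * (ε / 8)) (a' * (ε / 8) * Real.log 2 / D), hθ0, ?_⟩
  set θ : ℝ := min (a' * (ε / 8)) (a' * (ε / 8) * Real.log 2 / D) with hθ
  obtain ⟨J₀, hJ₀⟩ := exists_nat_ge ((|B₀| + B₁ * C) / (a' * (ε / 8) * Real.log 2))
  refine ⟨J₀, ?_⟩
  intro J hJ Ω _ ζ p Z v u τ hF hK hv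
  have hJr : (J₀ : ℝ) ≤ J := by exact_mod_cast hJ
  have hlJ : 0 ≤ (J : ℝ) * Real.log 2 := by positivity
  have hb := hB J Ω ζ p Z v u τ hF
  have hg := hC J Ω ((Fin m → ℤ) × ζ) p (bv Z v) τ hF.hp hF.h1 (fun ω hω => by
    have := hF.hτ ω hω
    push_cast at this
    exact this)
  have hS : Sb (2 ^ J) p Z v u τ - J * Real.log 2 ≤ Sf (2 ^ J) p Z v u τ := by
    have := CH_time_le hF.hp hF.h1 hF.hτ Z
    have hl : Real.log ((2 ^ J : ℕ) : ℝ) = J * Real.log 2 := by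
      push_cast
      rw [Real.log_pow]
    rw [hl] at this
    unfold Sb
    linarith
  have h1 : a' * (Sb (2 ^ J) p Z v u τ - J * Real.log 2) ≤ a' * Sf (2 ^ J) p Z v u τ :=
    mul_le_mul_of_nonneg_left hS ha'0.le
  have h2 : B₁ * Gf (2 ^ J) p (bv Z v) τ ≤ B₁ * (2 * Kf (2 ^ J) p (bv Z v) τ + C) :=
    mul_le_mul_of_nonneg_left hg hB₁
  have h3 : D * Kf (2 ^ J) p (bv Z v) τ ≤ D * (θ * J) := mul_le_mul_of_nonneg_left hK hD0.le
  have h4 : D * θ ≤ a' * (ε / 8) * Real.log 2 := by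
    have : θ ≤ a' * (ε / 8) * Real.log 2 / D := min_le_right _ _
    calc D * θ ≤ D * (a' * (ε / 8) * Real.log 2 / D) := mul_le_mul_of_nonneg_left this hD0.le
      _ = a' * (ε / 8) * Real.log 2 := by field_simp
  have h5 : D * (θ * J) ≤ a' * (ε / 8) * Real.log 2 * J := by
    have := mul_le_mul_of_nonneg_right h4 (Nat.cast_nonneg J : (0 : ℝ) ≤ J)
    linarith
  have h6 : |B₀| + B₁ * C ≤ a' * (ε / 8) * Real.log 2 * J := by
    have h7 : (|B₀| + B₁ * C) / (a' * (ε / 8) * Real.log 2) ≤ J := hJ₀.trans hJr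
    rw [div_le_iff₀ (by positivity)] at h7
    linarith
  have h7 : B₀ ≤ |B₀| := le_abs_self _
  have h8 : θ * (J * Real.log 2) ≤ a' * (ε / 8) * (J * Real.log 2) :=
    mul_le_mul_of_nonneg_right (min_le_left _ _) hlJ
  -- `m (J log 2) ≤ a' (Sf + (ε / 2) J log 2)`
  have h9 : (m : ℝ) * (J * Real.log 2) ≤
      a' * (Sf (2 ^ J) p Z v u τ + ε / 2 * (J * Real.log 2)) := by
    have e1 : D * Kf (2 ^ J) p (bv Z v) τ + B₁ * C =
      Λ * Kf (2 ^ J) p (bv Z v) τ + B₁ * (2 * Kf (2 ^ J) p (bv Z v) τ + C) := by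
      rw [hD]
      ring
    have e2 : ((m : ℝ) - θ) * (J * Real.log 2) = m * (J * Real.log 2) - θ * (J * Real.log 2) := by
      ring
    rw [e2] at hv
    nlinarith
  have h10 : (m : ℝ) / a' * (J * Real.log 2) ≤
      Sf (2 ^ J) p Z v u τ + ε / 2 * (J * Real.log 2) := by
    rw [div_mul_eq_mul_div, div_le_iff₀ ha'0]
    linarith
  have h11 : ((m + cc m) / α - ε / 4) * (J * Real.log 2) ≤ m / a' * (J * Real.log 2) :=
    mul_le_mul_of_nonneg_right hq hlJ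
  have h12 : 0 ≤ ε / 4 * (J * Real.log 2) := by positivity
  nlinarith

/-- The exponents near `α` (the first half of FIN3). -/
theorem aksg_near (hPUR : PUR3Stmt) (hLPG : LPGStmt) (hLPA : LPAStmt) (hLVO : LVO3Stmt)
    {d : ℕ} (hd : 7 ≤ d) {α : ℝ} (h1 : 1 < α) (hα : α ^ 3 = 4 * α - 2) :
    ∀ x : ℝ, α < x → ∃ a : ℝ, α < a ∧ a < x ∧
      AKSG d (a * d / (d + cc d)) (a * d / (d + cc d) + d) := by
  intro x hx0
  have hd7 : (7 : ℝ) ≤ d := by exact_mod_cast hd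
  obtain ⟨hα1, hα2⟩ := Pool.Agent.H53.Dns.alpha_bounds h1 hα
  have hαl := Fin22.alpha_low h1 hα
  have hx : α < min 1.6752 x := lt_min hα2 hx0
  obtain ⟨a, ha, hax, ha2, hG⟩ := hPUR d hd α h1 hα _ hx
  have hax1 : a < 1.6752 := lt_of_lt_of_le hax (min_le_left _ _)
  have hax2 : a < x := lt_of_lt_of_le hax (min_le_right _ _)
  have ha1 : 1 ≤ a := by linarith
  have hk : 0 ≤ kp a := (Fin70.kp_pos ha1 ha2).le
  have hroot : 0 ≤ a ^ 3 - 4 * a + 2 := by
    have e : a ^ 3 - 4 * a + 2 = (a - α) * (a ^ 2 + a * α + α ^ 2 - 4) := by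
      linear_combination hα
    rw [e]
    exact mul_nonneg (by linarith) (by nlinarith)
  have hP := hLPG d a (a + d) (kp a) ha1 (by linarith) hk hG
  have hA := hLPA d a (a + d) (kp a) ha1 (by linarith) hk hP (1 / 100) (by norm_num)
  have hmax : max (a + d) ((1 + 1 / 100) * (a + d + kp a)) = 1.01 * (a + d + kp a) := by
    rw [max_eq_right (by linarith)]
    norm_num
  rw [hmax] at hA
  exact ⟨a, ha, hax2, hLVO d a hd (by linarith) hax1.le hroot hA⟩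

/-- (DIM0) The dimension of Kakeya sets in `ℝ ^ n`, `n ≥ 8`. -/
def DIM0Stmt : Prop :=
  ∀ n : ℕ, 8 ≤ n → ∀ α : ℝ, 1 < α → α ^ 3 = 4 * α - 2 → ∀ K : Set (EuclideanSpace ℝ (Fin n)),
    (∀ e : EuclideanSpace ℝ (Fin n), ‖e‖ = 1 → ∃ x : EuclideanSpace ℝ (Fin n), ∀ t : ℝ,
      0 ≤ t → t ≤ 1 → x + t • e ∈ K) →
    ENNReal.ofReal (1 + ((n : ℝ) - 0.721 + 0.05 / ((n : ℝ) - 1)) / α) ≤ dimH K

theorem dim0 (hPUR : PUR3Stmt) (hLPG : LPGStmt) (hLPA : LPAStmt) (hLVO : LVO3Stmt) :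
    DIM0Stmt := by
  intro n hn α h1 hα K hK
  obtain ⟨m, rfl⟩ : ∃ m, n = m + 1 := ⟨n - 1, by omega⟩
  have hm : 7 ≤ m := by omega
  have hmr : (7 : ℝ) ≤ m := by exact_mod_cast hm
  obtain ⟨hα1, hα2⟩ := Pool.Agent.H53.Dns.alpha_bounds h1 hα
  have hαl := Fin22.alpha_low h1 hα
  have hcc : 0 < cc m := by unfold cc; positivity
  have hcc1 : cc m ≤ 1 := by
    unfold cc
    have : 0.05 / (m : ℝ) ≤ 0.05 / 7 := by gcongr
    linarith
  obtain ⟨s, hs⟩ : ∃ s : ℝ, s = (m + cc m) / α := ⟨_, rfl⟩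
  have hs0 : 0 ≤ s := by rw [hs]; positivity
  have hsm : s ≤ m := by
    rw [hs, div_le_iff₀ (by linarith)]
    nlinarith
  have hl : LevZero m s := by
    rw [hs]
    exact lev0_of hm h1 (aksg_near hPUR hLPG hLPA hLVO hm h1 hα)
  have h4 : Pool.KRN.EF m s := Pool.Agent.H51.KTH.efr sec m s hl
  have h2 : Pool.KRN.DensG m (m - s) := Pool.KRN73.geoOne m s (by omega) hs0 hsm h4
  have h3 := Pool.KRN.t_geo2 m (m - s) (by linarith) (by linarith) h2 K hK
  refine le_trans (le_of_eq ?_) h3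
  congr 1
  rw [hs]
  unfold cc
  push_cast
  have e : (m : ℝ) + 1 - 1 = m := by ring
  rw [e]
  ring

end Pool.LQ
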