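import Pool.Agent.H60.LQ.Cfg
import Pool.Agent.H22.LQ.LZR
import Pool.Agent.H24.KTH.CAP
import Pool.Agent.H36.LQ.UFT2
import Pool.Agent.H38.LQ.ENG2
import Pool.Agent.H38.LQ.GAG
import Pool.Agent.H38.LQ.T1R2
import Pool.Agent.H40.LQ.AIL2
import Pool.Agent.H42.LQ.DCS
import Pool.Agent.H42.LQ.UFC2
import Pool.Agent.H5.LQ.AIS2
import Pool.Agent.H5.LQ.DRV2
import Pool.Agent.H5.LQ.HCB
import Pool.Agent.H53.LQ.ITR
import Pool.Agent.H53.LQ.LOC
import Pool.Agent.H60.LQ.STP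
import Pool.Agent.H60.LQ.SUM2
import Pool.Agent.H62.LQ.ALS2
import Pool.Agent.H62.LQ.NRG
import Pool.Agent.H64.LQ.TLN2
import Pool.Agent.H65.LQ.FCK2
import Pool.Agent.H66.LQ.KPS2
import Pool.Agent.H70.LQ.FCO2
import Pool.Agent.H70.LQ.FIN
import Pool.Agent.H70.LQ.SBP
import Pool.Agent.H70.LQ.SEP2
import Pool.Agent.H70.LQ.UPT2
import Pool.Agent.H71.LQ.CGP2
import Pool.Agent.H71.LQ.PAR2
import Pool.Agent.H71.LQ.RDS
import Pool.Agent.H80.LQ.CFG2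
import Pool.Agent.H80.LQ.PSD
import Pool.Agent.H86.LQ.AYY2
import Pool.Agent.H86.LQ.ETA2
import Pool.Agent.H88.LQ.CHD2
import Pool.Agent.H91.LQ.DIR2
import Pool.Agent.H91.LQ.UFD2
import Pool.Agent.H97.LQ.AXI2
import Pool.Agent.H99.LQ.SCL2
import Pool.Agent.H25.KTH.CEN
import Pool.Agent.H44.KTH.HC
import Pool.Agent.H45.KTH.VEC
import Pool.Agent.H78.KTH.PT7

/-!
# The Kakeya maximal function without loss: assembly
-/

set_option autoImplicit false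

namespace Pool.LQ

open Pool.Agent.H24.KTH Pool.KTH

/-- **(LQ)** The inequality for tubes without loss for `d ≥ 7` and `q > 1 + α / (d + κ)`. -/
theorem lq_final : Pool.LQ.FINStmt := by
  have hSCL : SCL2Stmt := scl2
  have hENG : ENG2Stmt := eng2 psd
  have hSEP : SEP2Stmt := sep2
  have hFCK : FCK2Stmt := fck2 hSCL
  have hKPS : KPS2Stmt := kps2
  have hCGP : CGP2Stmt := cgp2 hKPS
  have hFCO : FCO2Stmt := fco2 hSCL hCGP
  have hUPT : UPT2Stmt := upt2 hCGP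
  have hUFT : UFT2Stmt := uft2
  have hUFC : UFC2Stmt := ufc2 hKPS hUPT
  have hUFD : UFD2Stmt := ufd2 hKPS hUPT
  have hDRV : DRV2Stmt := drv2 hUFC hUFD
  have hPAR : PAR2Stmt := par2 Pool.KTH.cen hUPT hCGP
  have hDIR : DIR2Stmt := dir2 hCGP
  have hCHD : CHD2Stmt := chd2 hKPS hCGP
  have hETA : ETA2Stmt := eta2 pt7 vec hCGP
  have hT1R : T1R2Stmt := t1r2 hUFT
  have hTLN : TLN2Stmt := tln2 hSEP hFCK
  have hALL : ALL2Stmt := all2 hTLN
  have hALS : ALS2Stmt := als2 hCHD hUPT hT1R hFCK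
  have hAIL : AIL2Stmt := ail2 hTLN
  have hAIS : AIS2Stmt := ais2 hCHD hUPT
  have hAXI : AXI2Stmt := axi2 hUFD hSEP hFCO
  have hAYY : AYY2Stmt := ayy2 hDIR hUFD
  have hSUM : SUM2Stmt := sum2 hALL hALS hAIL hAIS hAXI hAYY hDRV hPAR hETA hUFC
  have hCFG : CFG2Stmt := cfg2 hENG
  have hSTP : STPStmt := stp hSUM hCFG sbp
  have hRDS : RDSStmt := rds hc
  have hHCB : HCBStmt := hcb sbp nrg_thm hRDS cap_thm
  exact fin (itr (lzr sbp) loc hSTP gag) hSTP hHCB dcs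

end Pool.LQ
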