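import Pool.Agent.H24.LQ.Final
import Pool.Agent.H24.LQ.Dim0
import Pool.Agent.H1.LQ.NUM3
import Pool.Agent.H54.LQ.LVO3
import Pool.Agent.H99.LQ.LPA
import Pool.Agent.H67.LQ.SEC3
import Pool.Agent.H18.LQ.NRG3
import Pool.Agent.H22.LQ.FIN3
import Pool.Agent.H22.LQ.PUR3
import Pool.Agent.H36.LQ.ACO3
import Pool.Agent.H42.LQ.DIR3
import Pool.Agent.H44.LQ.SPL3
import Pool.Agent.H50.LQ.LVB3
import Pool.Agent.H51.LQ.LPG
import Pool.Agent.H52.LQ.TWO3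
import Pool.Agent.H60.LQ.ARB3
import Pool.Agent.H64.LQ.SPI3
import Pool.Agent.H78.KTH.INF
import Pool.Agent.H78.KTH.TRV
import Pool.Agent.H48.KTH.ONC
import Pool.Agent.H88.LQ.AIL3
import Pool.Agent.H91.LQ.CFG3

/-!
# The Kakeya maximal function without loss, two levels: assembly
-/

set_option autoImplicit false

namespace Pool.LQ

open Pool.Agent.H24.KTH Pool.KTH

theorem lq0_of (hSEC : SEC3Stmt) : FIN3Stmt ∧ DIM0Stmt := by
  have hSCL : SCL2Stmt := scl2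
  have hENG : ENG2Stmt := eng2 psd
  have hSEP : SEP2Stmt := sep2
  have hFCK : FCK2Stmt := fck2 hSCL
  have hKPS : KPS2Stmt := kps2
  have hCGP : CGP2Stmt := cgp2 hKPS
  have hFCO : FCO2Stmt := fco2 hSCL hCGP
  have hUPT : UPT2Stmt := upt2 hCGP
  have hUFT : UFT2Stmt := uft2
  have hUFC : UFC2Stmt := ufc2 hKPS hUPT
  have hUFD : UFD2Stmt := ufd2 hKPS hUPT
  have hDRV : DRV2Stmt := drv2 hUFC hUFD
  have hPAR : PAR2Stmt := par2 Pool.KTH.cen hUPT hCGP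
  have hDIR : DIR2Stmt := dir2 hCGP
  have hCHD : CHD2Stmt := chd2 hKPS hCGP
  have hETA : ETA2Stmt := eta2 pt7 vec hCGP
  have hT1R : T1R2Stmt := t1r2 hUFT
  have hTLN : TLN2Stmt := tln2 hSEP hFCK
  have hALL : ALL2Stmt := all2 hTLN
  have hALS : ALS2Stmt := als2 hCHD hUPT hT1R hFCK
  have hAIL : AIL2Stmt := ail2 hTLN
  have hAIS : AIS2Stmt := ais2 hCHD hUPT
  have hAXI : AXI2Stmt := axi2 hUFD hSEP hFCO
  have hAYY : AYY2Stmt := ayy2 hDIR hUFD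
  have hSUM : SUM2Stmt := sum2 hALL hALS hAIL hAIS hAXI hAYY hDRV hPAR hETA hUFC
  have hCFG : CFG2Stmt := cfg2 hENG
  have hSTP : STPStmt := stp hSUM hCFG sbp
  have hRDS : RDSStmt := rds hc
  have hHCB : HCBStmt := hcb sbp nrg_thm hRDS cap_thm
  have hITR : ITRStmt := itr (lzr sbp) loc hSTP gag
  -- level two
  have hNRG : NRG3Stmt := nrg3_thm
  have hPUR : PUR3Stmt := pur3 hITR hSTP sbp
  have hLPG : LPGStmt := lpg hNRG hRDS cap_thm
  have hSPL : SPL3Stmt := spl3 (two3 hNRG) onc hCGP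
  have hSPI : SPI3Stmt := spi3 inf
  have hACO : ACO3Stmt := aco3 (dir3 hCGP) hTLN hFCK
  have hLVB : LVB3Stmt := lvb3 (cfg3 hENG) hSPL hSPI arb3 hALL hALS hAIL (ail3 hTLN) hAIS hAXI
    hAYY hACO hDRV hPAR hETA hUFC sbp
  have hLVO : LVO3Stmt := lvo3 hRDS hNRG cap_thm (ksp cap_thm) hLVB num3
  have hLPA : LPAStmt := lpa hSEC
  exact ⟨fin3 hPUR hLPG hLPA hLVO hHCB dcs, dim0 hPUR hLPG hLPA hLVO⟩

/-- **(LQ0)** The inequality for tubes without loss, `n ≥ 8`. -/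
theorem lq0 : FIN3Stmt := (lq0_of sec3).1

/-- **(LQ0)** The dimension of Kakeya sets, `n ≥ 8`. -/
theorem lq0_dim : DIM0Stmt := (lq0_of sec3).2

end Pool.LQ
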